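import Mathlib
import Pool.Agent.H643R2.VR.Ind

/-! # MP_5c28a4_al: finiteness conditions on subvariety lattices -/

set_option autoImplicit false

namespace Pool.Agent.Results.MP_5c28a4_al.FinitenessConditions

open Pool.Agent.H643R2.VR

theorem result :
    (∀ N : Subgroup (FreeGroup ℕ), FI N → P1 N → P2 N) ∧
    (∀ N : Subgroup (FreeGroup ℕ), FI N →
      (∀ (G : Type) [Group G], Group.FG G → N ≤ laws G → Group.IsNilpotent G) →
      (P1 N ↔ P2 N) ∧ (P2 N ↔ P3 N)) ∧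
    (∀ N : Subgroup (FreeGroup ℕ), FI N → P3 N → ¬ P1 N →
      ∃ (G : Type) (_ : Group G), Group.FG G ∧ N ≤ laws G ∧ P3 (laws G) ∧ ¬ P1 (laws G)) ∧
    (∀ N : Subgroup (FreeGroup ℕ), FI N → P2 N → ¬ P1 N →
      ∃ (G : Type) (_ : Group G), Group.FG G ∧ N ≤ laws G ∧ P2 (laws G) ∧ ¬ P1 (laws G)) := by
  refine ⟨fun N _ h => P1_P2 h, ?_, ?_, ?_⟩
  · intro N hN hnil
    have h31 : P3 N → P1 N := by
      intro h3
      by_contra h1
      obtain ⟨s, hs⟩ := exists_rank' h3 h1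
      exact not_hasChain_V hN hnil s hs
    exact ⟨⟨P1_P2, fun h => h31 (P2_P3 h)⟩, ⟨P2_P3, fun h => P1_P2 (h31 h)⟩⟩
  · intro N hN h3 h1
    obtain ⟨G, hG, hfg, hl, hch⟩ := reduce hN h3 h1
    exact ⟨G, hG, hfg, hl, h3.mono hl, hch⟩
  · intro N hN h2 h1
    obtain ⟨G, hG, hfg, hl, hch⟩ := reduce hN (P2_P3 h2) h1
    exact ⟨G, hG, hfg, hl, h2.mono hl, hch⟩

end Pool.Agent.Results.MP_5c28a4_al.FinitenessConditions
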